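import Mathlib

set_option autoImplicit false
set_option linter.unusedSectionVars false

namespace Pool.Agent.Results.MP_f053ce_co.Asymptotic

open Finset SimpleGraph Filter Topology

/-- `G` is critical `k`-chromatic: its chromatic number is `k` and deleting any single vertex
leaves a graph of chromatic number `k - 1` -/
def IsCritical {V : Type} (G : SimpleGraph V) (k : ℕ) : Prop :=
  G.chromaticNumber = (k : ℕ∞) ∧ ∀ x : V, (G.induce {x}ᶜ).chromaticNumber = ((k - 1 : ℕ) : ℕ∞)

/-- `f_k(n)`: the largest number of edges of a critical `k`-chromatic graph on `n` vertices -/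
noncomputable def maxEdges (k n : ℕ) : ℕ :=
  sSup {m : ℕ | ∃ G : SimpleGraph (Fin n), IsCritical G k ∧ G.edgeSet.ncard = m}

section Upper

open Classical

variable {V : Type} [Fintype V]

/-- number of neighbours of `w` in `A` -/
noncomputable def nb (G : SimpleGraph V) (w : V) (A : Finset V) : ℕ := (A.filter (fun a => G.Adj w a)).card

/-- number of ordered adjacent pairs inside `X` -/
noncomputable def E2 (G : SimpleGraph V) (X : Finset V) : ℕ := ∑ w ∈ X, nb G w X

lemma nb_le (G : SimpleGraph V) (w : V) (A : Finset V) : nb G w A ≤ A.card := card_filter_le _ _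

lemma nb_mono (G : SimpleGraph V) (w : V) {A B : Finset V} (h : A ⊆ B) : nb G w A ≤ nb G w B :=
  card_le_card (filter_subset_filter _ h)

lemma nb_union_le (G : SimpleGraph V) (w : V) (A B : Finset V) : nb G w (A ∪ B) ≤ nb G w A + nb G w B := by
  unfold nb
  rw [filter_union]
  exact card_union_le _ _

lemma sum_nb_comm (G : SimpleGraph V) (A B : Finset V) : ∑ w ∈ A, nb G w B = ∑ w ∈ B, nb G w A := by
  unfold nb
  simp only [card_filter]
  rw [sum_comm]
  refine sum_congr rfl (fun x _ => sum_congr rfl (fun y _ => ?_))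
  simp only [G.adj_comm]

lemma E2_le_sq (G : SimpleGraph V) (X : Finset V) : E2 G X ≤ X.card * X.card := by
  unfold E2
  calc ∑ w ∈ X, nb G w X ≤ ∑ _w ∈ X, X.card := sum_le_sum (fun w _ => nb_le G w X)
    _ = X.card * X.card := by simp

/-- removing a set `B` from `X` -/
lemma E2_sdiff (G : SimpleGraph V) (X B : Finset V) (hB : B ⊆ X) :
    E2 G X ≤ E2 G (X \ B) + 2 * ∑ w ∈ X, nb G w B := by
  unfold E2
  have h1 : ∑ w ∈ X, nb G w X ≤ ∑ w ∈ X, (nb G w (X \ B) + nb G w B) := by
    refine sum_le_sum (fun w _ => ?_)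
    have : X = (X \ B) ∪ B := (sdiff_union_of_subset hB).symm
    calc nb G w X = nb G w ((X \ B) ∪ B) := by rw [← this]
      _ ≤ _ := nb_union_le G w _ _
  have h2 : ∑ w ∈ X, nb G w (X \ B) = ∑ w ∈ X \ B, nb G w (X \ B) + ∑ w ∈ B, nb G w (X \ B) :=
    (sum_sdiff hB).symm
  have h3 : ∑ w ∈ B, nb G w (X \ B) = ∑ w ∈ X \ B, nb G w B := sum_nb_comm G _ _
  have h4 : ∑ w ∈ X \ B, nb G w B ≤ ∑ w ∈ X, nb G w B := sum_le_sum_of_subset sdiff_subset
  rw [sum_add_distrib] at h1
  omega

/-- a family of `r` sets whose colours are pairwise distinct and constant in every colouring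
of a vertex-deleted subgraph -/
def Rigid {r : ℕ} (c : V → V → Fin r) (T : Fin r → Finset V) : Prop :=
  ∀ v, ∃ π : Fin r → Fin r, Function.Injective π ∧ ∀ p, ∀ x ∈ T p, x ≠ v → c v x = π p

/-- a set which is monochromatic in every colouring of a vertex-deleted subgraph -/
def Cell {r : ℕ} (c : V → V → Fin r) (D : Finset V) : Prop :=
  ∀ v, ∀ x ∈ D, ∀ y ∈ D, x ≠ v → y ≠ v → c v x = c v y

/-- a complete `r`-partite subgraph with parts of size `t` -/
def IsBlob (G : SimpleGraph V) (r t : ℕ) (B : Fin r → Finset V) : Prop :=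
  (∀ p, (B p).card = t) ∧ ∀ p q, p ≠ q → ∀ x ∈ B p, ∀ y ∈ B q, G.Adj x y

lemma Rigid.cell {r : ℕ} {c : V → V → Fin r} {T : Fin r → Finset V} (h : Rigid c T) (p : Fin r) :
    Cell c (T p) := by
  intro v x hx y hy hxv hyv
  obtain ⟨π, -, hπ⟩ := h v
  rw [hπ p x hx hxv, hπ p y hy hyv]

lemma IsBlob.rigid {G : SimpleGraph V} {r t : ℕ} {c : V → V → Fin r}
    (hc : ∀ v a b, G.Adj a b → a ≠ v → b ≠ v → c v a ≠ c v b)
    {B : Fin r → Finset V} (hB : IsBlob G r t B) (ht : 2 ≤ t) : Rigid c B := by
  intro v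
  have hex : ∀ p, ∃ x ∈ B p, x ≠ v := by
    intro p
    exact Finset.exists_mem_ne (by rw [hB.1 p]; omega) v
  choose b hb hbv using hex
  have hinj : Function.Injective (fun p => c v (b p)) := by
    intro p q hpq
    by_contra hne
    exact hc v (b p) (b q) (hB.2 p q hne _ (hb p) _ (hb q)) (hbv p) (hbv q) hpq
  refine ⟨fun p => c v (b p), hinj, ?_⟩
  intro p x hx hxv
  obtain ⟨q, hq⟩ := (Finite.injective_iff_surjective.1 hinj) (c v x)
  by_cases hqp : q = p
  · subst hqp; exact hq.symm
  · exact absurd hq (hc v (b q) x (hB.2 q p hqp _ (hb q) _ hx) (hbv q) hxv)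

/-- the key counting step -/
lemma blob_step (G : SimpleGraph V) (r t : ℕ) (hr : 3 ≤ r) (ht : 2 ≤ t) (c : V → V → Fin r)
    (hc : ∀ v a b, G.Adj a b → a ≠ v → b ≠ v → c v a ≠ c v b)
    (hs : ∀ v (γ : Fin r), ∃ w, G.Adj v w ∧ c v w = γ)
    (hn : r + 2 ≤ Fintype.card V)
    (X : Finset V) (B : Fin r → Finset V) (hB : IsBlob G r t B) (hBX : ∀ p, B p ⊆ X)
    (D : Finset (Finset V)) (hD : ∀ d ∈ D, Cell c d) (hXD : ∀ v, v ∉ X → ∃ d ∈ D, v ∈ d) :
    2 * ∑ w ∈ X, ∑ p, nb G w (B p) ≤ t * (2 * r - 3) * X.card + t * r * D.card + 2 * r * X.card := by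
  -- a maximal rigid family
  have hBr : Rigid c B := hB.rigid hc ht
  obtain ⟨T, hT, hTmax⟩ := Finset.exists_max_image
    (univ.filter (fun T : Fin r → Finset V => Rigid c T ∧ ∀ p, B p ⊆ T p ∧ T p ⊆ X))
    (fun T => ∑ p, (T p).card) ⟨B, by simp [hBr, hBX]⟩
  simp only [mem_filter, mem_univ, true_and] at hT hTmax
  obtain ⟨hTr, hTB⟩ := hT
  have hdisj : ∀ p q, p ≠ q → Disjoint (T p) (T q) := by
    intro p q hpq
    rw [Finset.disjoint_left]
    intro x hxp hxq
    obtain ⟨v, hv⟩ : ∃ v, v ≠ x := by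
      by_contra hcon
      push Not at hcon
      have : Fintype.card V ≤ 1 := Fintype.card_le_one_iff.2 (fun a b => by rw [hcon a, hcon b])
      omega
    obtain ⟨π, hπ, hπc⟩ := hTr v
    exact hpq (hπ ((hπc p x hxp hv.symm).symm.trans (hπc q x hxq hv.symm)))
  have hindep : ∀ p, ∀ x ∈ T p, ∀ y ∈ T p, ¬ G.Adj x y := by
    intro p x hx y hy hxy
    obtain ⟨v, hv⟩ : ∃ v, v ∉ ({x, y} : Finset V) := by
      by_contra hcon
      push Not at hcon
      have : Fintype.card V ≤ 2 := by
        rw [← Finset.card_univ]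
        exact (card_le_card (fun v _ => hcon v)).trans (card_le_two)
      omega
    simp only [mem_insert, mem_singleton, not_or] at hv
    obtain ⟨π, hπ, hπc⟩ := hTr v
    exact hc v x y hxy (Ne.symm hv.1) (Ne.symm hv.2)
      ((hπc p x hx (Ne.symm hv.1)).trans (hπc p y hy (Ne.symm hv.2)).symm)
  set U : Finset V := univ.biUnion T with hU
  have hUX : U ⊆ X := by
    rw [hU]; exact biUnion_subset.2 (fun p _ => (hTB p).2)
  have hUcard : U.card = ∑ p, (T p).card :=
    card_biUnion (fun p _ q _ hpq => hdisj p q hpq)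
  have hmemU : ∀ x, x ∈ U ↔ ∃ p, x ∈ T p := by intro x; simp [hU]
  -- partners
  have hpart : ∀ p, ∀ x ∈ T p, ∃ w, w ∉ U ∧ (T p).filter (fun a => G.Adj w a) = {x} ∧
      (∀ y ∈ T p, y ≠ x → c x y = c x w) := by
    intro p x hx
    obtain ⟨π, hπ, hπc⟩ := hTr x
    obtain ⟨w, hxw, hw⟩ := hs x (π p)
    have hwx : w ≠ x := fun h => G.irrefl (h ▸ hxw)
    have hwU : w ∉ U := by
      rw [hmemU]
      rintro ⟨q, hq⟩
      have h1 := hπc q w hq hwx
      rw [hw] at h1
      have h2 := hπ h1
      subst h2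
      exact hindep p x hx w hq hxw
    refine ⟨w, hwU, ?_, ?_⟩
    · ext y
      simp only [mem_filter, mem_singleton]
      constructor
      · rintro ⟨hy, hwy⟩
        by_contra hyx
        exact hc x w y hwy hwx hyx (by rw [hw, hπc p y hy hyx])
      · rintro rfl
        exact ⟨hx, hxw.symm⟩
    · intro y hy hyx
      rw [hπc p y hy hyx, hw]
  -- the two types of classes seen from an outside vertex
  let a : V → ℕ := fun w => (univ.filter (fun p => 2 ≤ nb G w (T p))).card
  let s : V → ℕ := fun w => (univ.filter (fun p => nb G w (T p) = 1)).card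
  have ha : ∀ w ∈ X \ U, a w ≤ r - 2 := by
    intro w hw
    rw [Finset.mem_sdiff] at hw
    by_contra hcon
    push Not at hcon
    -- there is p0 such that all other classes have at least two neighbours
    have h1 : ((univ.filter (fun p => 2 ≤ nb G w (T p)))ᶜ).card ≤ 1 := by
      rw [card_compl, Fintype.card_fin]
      have : a w = (univ.filter (fun p => 2 ≤ nb G w (T p))).card := rfl
      omega
    obtain ⟨p0, hp0⟩ : ∃ p0 : Fin r, ∀ p, p ≠ p0 → 2 ≤ nb G w (T p) := by
      rcases Nat.eq_zero_or_pos ((univ.filter (fun p => 2 ≤ nb G w (T p)))ᶜ).card with h0 | h0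
      · refine ⟨⟨0, by omega⟩, fun p _ => ?_⟩
        rw [card_eq_zero] at h0
        have : p ∉ (univ.filter (fun p => 2 ≤ nb G w (T p)))ᶜ := by rw [h0]; simp
        simp only [mem_compl, mem_filter, mem_univ, true_and, not_not] at this
        exact this
      · have h2 : ((univ.filter (fun p => 2 ≤ nb G w (T p)))ᶜ).card = 1 := by omega
        obtain ⟨p0, hp0⟩ := card_eq_one.1 h2
        refine ⟨p0, fun p hp => ?_⟩
        have : p ∉ (univ.filter (fun p => 2 ≤ nb G w (T p)))ᶜ := by rw [hp0]; simpa using hp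
        simp only [mem_compl, mem_filter, mem_univ, true_and, not_not] at this
        exact this
    -- then w can be added to T p0
    let T' : Fin r → Finset V := Function.update T p0 (insert w (T p0))
    have hT' : Rigid c T' := by
      intro v
      obtain ⟨π, hπ, hπc⟩ := hTr v
      refine ⟨π, hπ, ?_⟩
      intro p x hx hxv
      by_cases hpp : p = p0
      · subst hpp
        simp only [T', Function.update_self, mem_insert] at hx
        rcases hx with rfl | hx
        · -- colour of w
          obtain ⟨q, hq⟩ := (Finite.injective_iff_surjective.1 hπ) (c v x)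
          by_cases hqp : q = p
          · subst hqp; exact hq.symm
          · exfalso
            have h2 := hp0 q hqp
            obtain ⟨u, hu, huv⟩ := Finset.exists_mem_ne (s := (T q).filter (fun a => G.Adj x a)) (by
              have : nb G x (T q) = ((T q).filter (fun a => G.Adj x a)).card := rfl
              omega) v
            rw [mem_filter] at hu
            exact hc v x u hu.2 hxv huv (by rw [← hq, hπc q u hu.1 huv])
        · exact hπc p x hx hxv
      · simp only [T', Function.update_of_ne hpp] at hx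
        exact hπc p x hx hxv
    have hT'2 : ∀ p, B p ⊆ T' p ∧ T' p ⊆ X := by
      intro p
      by_cases hpp : p = p0
      · subst hpp
        simp only [T', Function.update_self]
        exact ⟨(hTB p).1.trans (subset_insert _ _), insert_subset hw.1 (hTB p).2⟩
      · simp only [T', Function.update_of_ne hpp]
        exact hTB p
    have hwT : w ∉ T p0 := fun h => hw.2 ((hmemU w).2 ⟨p0, h⟩)
    have h3 := hTmax T' ⟨hT', hT'2⟩
    have h4 : ∑ p, (T p).card < ∑ p, (T' p).card := by
      refine sum_lt_sum (fun p _ => ?_) ⟨p0, mem_univ _, ?_⟩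
      · by_cases hpp : p = p0
        · subst hpp
          simp only [T', Function.update_self]
          exact card_le_card (subset_insert _ _)
        · simp only [T', Function.update_of_ne hpp]; exact le_rfl
      · simp only [T', Function.update_self, card_insert_of_notMem hwT]
        omega
    omega
  have has : ∀ w ∈ X \ U, a w + s w ≤ r - 1 := by
    intro w hw
    have h1 : a w + s w = (univ.filter (fun p => 1 ≤ nb G w (T p))).card := by
      rw [← card_union_of_disjoint]
      · congr 1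
        ext p
        simp only [mem_union, mem_filter, mem_univ, true_and]
        omega
      · rw [Finset.disjoint_left]
        intro p hp hq
        simp only [mem_filter, mem_univ, true_and] at hp hq
        omega
    rw [h1]
    by_contra hcon
    push Not at hcon
    have h2 : (univ.filter (fun p => 1 ≤ nb G w (T p))).card = Fintype.card (Fin r) := by
      have := card_filter_le (univ : Finset (Fin r)) (fun p => 1 ≤ nb G w (T p))
      rw [card_univ, Fintype.card_fin] at this
      rw [Fintype.card_fin]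
      omega
    have h3 := (card_eq_iff_eq_univ _).1 h2
    have h4 : ∀ p, ∃ x ∈ T p, G.Adj w x := by
      intro p
      have : p ∈ univ.filter (fun p => 1 ≤ nb G w (T p)) := by rw [h3]; exact mem_univ _
      simp only [mem_filter, mem_univ, true_and] at this
      obtain ⟨x, hx⟩ := card_pos.1 (show 0 < ((T p).filter (fun a => G.Adj w a)).card from this)
      rw [mem_filter] at hx
      exact ⟨x, hx⟩
    choose y hy hwy using h4
    obtain ⟨v, hv⟩ : ∃ v, v ∉ insert w (univ.image y) := by
      by_contra hcon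
      push Not at hcon
      have : Fintype.card V ≤ r + 1 := by
        rw [← Finset.card_univ]
        refine (card_le_card (fun v _ => hcon v)).trans ((card_insert_le _ _).trans ?_)
        have := card_image_le (s := (univ : Finset (Fin r))) (f := y)
        rw [card_univ, Fintype.card_fin] at this
        omega
      omega
    simp only [mem_insert, mem_image, mem_univ, true_and, not_or, not_exists] at hv
    obtain ⟨π, hπ, hπc⟩ := hTr v
    obtain ⟨q, hq⟩ := (Finite.injective_iff_surjective.1 hπ) (c v w)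
    exact hc v w (y q) (hwy q) (Ne.symm hv.1) (hv.2 q) (by rw [← hq, hπc q (y q) (hy q) (hv.2 q)])
  -- many partners
  have hsum : U.card ≤ ∑ w ∈ X \ U, s w + r * D.card := by
    have h1 : ∑ w ∈ X \ U, s w = ∑ p : Fin r, ((X \ U).filter (fun w => nb G w (T p) = 1)).card := by
      simp only [s, card_filter]
      rw [sum_comm]
    have h2 : ∀ p, (T p).card ≤ ((X \ U).filter (fun w => nb G w (T p) = 1)).card + D.card := by
      intro p
      have hpp := hpart p
      choose! f hf1 hf2 hf3 using hpp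
      have hfinj : ∀ x ∈ T p, ∀ y ∈ T p, f x = f y → x = y := by
        intro x hx y hy hxy
        have h5 := hf2 x hx
        rw [hxy, hf2 y hy] at h5
        exact (singleton_injective h5).symm
      have hsplit : (T p).card = ((T p).filter (fun x => f x ∈ X)).card
          + ((T p).filter (fun x => ¬ f x ∈ X)).card :=
        (card_filter_add_card_filter_not (s := T p) (fun x => f x ∈ X)).symm
      have hA : ((T p).filter (fun x => f x ∈ X)).card ≤
          ((X \ U).filter (fun w => nb G w (T p) = 1)).card := by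
        refine card_le_card_of_injOn f ?_ ?_
        · intro x hx
          rw [Finset.mem_coe, mem_filter] at hx
          rw [Finset.mem_coe, mem_filter, Finset.mem_sdiff]
          refine ⟨⟨hx.2, hf1 x hx.1⟩, ?_⟩
          unfold nb
          rw [hf2 x hx.1, card_singleton]
        · intro x hx y hy hxy
          rw [Finset.mem_coe, mem_filter] at hx hy
          exact hfinj x hx.1 y hy.1 hxy
      have hBB : ((T p).filter (fun x => ¬ f x ∈ X)).card ≤ D.card := by
        have hex : ∀ x ∈ (T p).filter (fun x => ¬ f x ∈ X), ∃ d ∈ D, f x ∈ d := by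
          intro x hx
          rw [mem_filter] at hx
          exact hXD (f x) hx.2
        choose! g hg1 hg2 using hex
        refine card_le_card_of_injOn g (fun x hx => hg1 x hx) ?_
        intro x hx y hy hxy
        rw [Finset.mem_coe] at hx hy
        have hx' := hx
        have hy' := hy
        rw [mem_filter] at hx hy
        by_contra hne
        have hfx : f x ≠ x := fun h => hf1 x hx.1 (by rw [h]; exact (hmemU x).2 ⟨p, hx.1⟩)
        have hfy : f y ≠ x := fun h => hf1 y hy.1 (by rw [h]; exact (hmemU x).2 ⟨p, hx.1⟩)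
        have hgy : f y ∈ g x := by rw [hxy]; exact hg2 y hy'
        have h6 := hD (g x) (hg1 x hx') x (f x) (hg2 x hx') (f y) hgy hfx hfy
        have h7 := hf3 x hx.1 y hy.1 (Ne.symm hne)
        have h8 : G.Adj (f y) y := by
          have : y ∈ (T p).filter (fun a => G.Adj (f y) a) := by rw [hf2 y hy.1]; simp
          exact (mem_filter.1 this).2
        exact hc x (f y) y h8 hfy (Ne.symm hne) (by rw [h7, ← h6])
      omega
    calc U.card = ∑ p, (T p).card := hUcard
      _ ≤ ∑ p : Fin r, (((X \ U).filter (fun w => nb G w (T p) = 1)).card + D.card) :=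
          sum_le_sum (fun p _ => h2 p)
      _ = ∑ w ∈ X \ U, s w + r * D.card := by
          rw [sum_add_distrib, ← h1]; simp
  -- degrees into the blob
  have hdU : ∀ w ∈ U, ∑ p, nb G w (B p) ≤ (r - 1) * t := by
    intro w hw
    obtain ⟨q, hq⟩ := (hmemU w).1 hw
    rw [← add_sum_erase _ _ (mem_univ q)]
    have h1 : nb G w (B q) = 0 := by
      unfold nb
      rw [card_eq_zero, filter_eq_empty_iff]
      intro x hx
      exact hindep q w hq x ((hTB q).1 hx)
    have h2 : ∑ p ∈ univ.erase q, nb G w (B p) ≤ ∑ _p ∈ univ.erase q, t :=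
      sum_le_sum (fun p _ => (nb_le G w _).trans (hB.1 p).le)
    rw [sum_const, card_erase_of_mem (mem_univ q), card_univ, Fintype.card_fin, smul_eq_mul] at h2
    omega
  have hdX : ∀ w ∈ X \ U, ∑ p, nb G w (B p) ≤ t * a w + r := by
    intro w hw
    have h1 : ∀ p, nb G w (B p) ≤ (if 2 ≤ nb G w (T p) then t else 0) + 1 := by
      intro p
      split_ifs with h
      · exact ((nb_le G w _).trans (hB.1 p).le).trans (Nat.le_succ _)
      · have := nb_mono G w (hTB p).1
        omega
    calc ∑ p, nb G w (B p) ≤ ∑ p : Fin r, ((if 2 ≤ nb G w (T p) then t else 0) + 1) :=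
          sum_le_sum (fun p _ => h1 p)
      _ = t * a w + r := by
          rw [sum_add_distrib, ← sum_filter, sum_const]
          simp [a, mul_comm]
  have hXs : X.card = (X \ U).card + U.card := (card_sdiff_add_card_eq_card hUX).symm
  have hfin : ∑ w ∈ X, ∑ p, nb G w (B p) ≤ (r - 1) * t * U.card + t * ∑ w ∈ X \ U, a w
      + r * (X \ U).card := by
    rw [← sum_sdiff hUX]
    have h1 : ∑ w ∈ X \ U, ∑ p, nb G w (B p) ≤ ∑ w ∈ X \ U, (t * a w + r) := sum_le_sum hdX
    have h2 : ∑ w ∈ U, ∑ p, nb G w (B p) ≤ ∑ _w ∈ U, (r - 1) * t := sum_le_sum hdU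
    rw [sum_add_distrib, ← mul_sum, sum_const, smul_eq_mul] at h1
    rw [sum_const, smul_eq_mul] at h2
    nlinarith
  have h2a : 2 * ∑ w ∈ X \ U, a w + ∑ w ∈ X \ U, s w ≤ (2 * r - 3) * (X \ U).card := by
    rw [mul_sum, ← sum_add_distrib]
    calc ∑ w ∈ X \ U, (2 * a w + s w) ≤ ∑ _w ∈ X \ U, (2 * r - 3) := by
          refine sum_le_sum (fun w hw => ?_)
          have := ha w hw
          have := has w hw
          omega
      _ = (2 * r - 3) * (X \ U).card := by rw [sum_const, smul_eq_mul, mul_comm]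
  have h2b : 2 * ∑ w ∈ X \ U, a w + U.card ≤ (2 * r - 3) * (X \ U).card + r * D.card := by omega
  have h2c : 2 * (t * ∑ w ∈ X \ U, a w) + t * U.card ≤
      t * (2 * r - 3) * (X \ U).card + t * r * D.card := by
    calc 2 * (t * ∑ w ∈ X \ U, a w) + t * U.card = t * (2 * ∑ w ∈ X \ U, a w + U.card) := by ring
      _ ≤ t * ((2 * r - 3) * (X \ U).card + r * D.card) := Nat.mul_le_mul_left _ h2b
      _ = _ := by ring
  obtain ⟨r', rfl⟩ : ∃ r', r = r' + 3 := ⟨r - 3, by omega⟩
  have e1 : 2 * (r' + 3) - 3 = 2 * r' + 3 := by omega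
  have e2 : r' + 3 - 1 = r' + 2 := by omega
  rw [e1] at h2c ⊢
  rw [e2] at hfin
  rw [hXs]
  nlinarith

lemma IsBlob.disj {G : SimpleGraph V} {r t : ℕ} {B : Fin r → Finset V} (hB : IsBlob G r t B)
    (p q : Fin r) (hpq : p ≠ q) : Disjoint (B p) (B q) := by
  rw [Finset.disjoint_left]
  intro x hx hx'
  exact G.irrefl (hB.2 p q hpq x hx x hx')

lemma IsBlob.card_union {G : SimpleGraph V} {r t : ℕ} {B : Fin r → Finset V} (hB : IsBlob G r t B) :
    (univ.biUnion B).card = r * t := by
  rw [card_biUnion (fun p _ q _ hpq => hB.disj p q hpq), sum_congr rfl (fun p _ => hB.1 p)]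
  simp

lemma nb_biUnion_le (G : SimpleGraph V) (w : V) {r : ℕ} (B : Fin r → Finset V) :
    nb G w (univ.biUnion B) ≤ ∑ p, nb G w (B p) := by
  unfold nb
  rw [filter_biUnion]
  exact card_biUnion_le

/-- a graph without complete `(m+1)`-partite subgraph has few edges (Erdos-Stone) -/
lemma no_blob_bound (m t : ℕ) (ε : ℝ) (hε : 0 < ε) (hm : 1 ≤ m) :
    ∃ C : ℝ, 0 ≤ C ∧ ∀ (W : Type) [Fintype W] (G : SimpleGraph W) (X : Finset W),
      (¬ ∃ B : Fin (m + 1) → Finset W, IsBlob G (m + 1) t B ∧ ∀ p, B p ⊆ X) →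
      (E2 G X : ℝ) ≤ (1 - 1 / (m : ℝ) + ε) * X.card * (X.card + 1) + C := by
  obtain ⟨N, hN⟩ := eventually_atTop.1
    (eventually_completeEquipartiteGraph_isContained_of_minDegree hε m t)
  refine ⟨(N : ℝ) * N, by positivity, ?_⟩
  have hth : 0 ≤ 1 - 1 / (m : ℝ) := by
    have : (1 : ℝ) ≤ m := by exact_mod_cast hm
    have : 1 / (m : ℝ) ≤ 1 := by rw [div_le_one (by linarith)]; exact this
    linarith
  intro W _ G X
  induction X using Finset.strongInduction with
  | H X ih =>
    intro hX
    rcases lt_or_ge X.card (max N 1) with hlt | hge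
    · have h1 : (E2 G X : ℝ) ≤ (X.card : ℝ) * X.card := by exact_mod_cast E2_le_sq G X
      have h3 : 0 ≤ (1 - 1 / (m : ℝ) + ε) * X.card * (X.card + 1) := by positivity
      rcases Nat.eq_zero_or_pos X.card with h0 | h0
      · rw [h0] at h1 h3 ⊢
        have : (0 : ℝ) ≤ (N : ℝ) * N := by positivity
        simp only [Nat.cast_zero] at h1 h3 ⊢
        linarith
      · have h2 : (X.card : ℝ) ≤ N := by
          have : X.card < N := by
            rcases lt_max_iff.1 hlt with h | h
            · exact h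
            · omega
          exact_mod_cast this.le
        have : (X.card : ℝ) * X.card ≤ (N : ℝ) * N := by
          have h0' : (0 : ℝ) ≤ X.card := by positivity
          nlinarith
        linarith
    · have hcard1 : 1 ≤ X.card := (le_max_right _ _).trans hge
      have hcardN : N ≤ X.card := (le_max_left _ _).trans hge
      -- a vertex of small degree
      obtain ⟨v, hvX, hv⟩ : ∃ v ∈ X, (nb G v X : ℝ) < (1 - 1 / (m : ℝ) + ε) * X.card := by
        by_contra hcon
        push Not at hcon
        apply hX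
        let f : Fin X.card → W := fun i => ((X.equivFin.symm i : X) : W)
        have hfX : ∀ i, f i ∈ X := fun i => (X.equivFin.symm i).2
        have hfinj : Function.Injective f := fun i j hij =>
          X.equivFin.symm.injective (Subtype.ext hij)
        have hfsurj : ∀ x ∈ X, ∃ i, f i = x := fun x hx =>
          ⟨X.equivFin ⟨x, hx⟩, by simp [f]⟩
        let G' : SimpleGraph (Fin X.card) := G.comap f
        have hdeg : ∀ i, (G'.degree i : ℝ) ≥ (1 - 1 / (m : ℝ) + ε) * X.card := by
          intro i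
          refine (hcon (f i) (hfX i)).trans ?_
          have : nb G (f i) X ≤ G'.degree i := by
            unfold nb
            rw [← card_neighborFinset_eq_degree]
            refine (card_le_card (t := (G'.neighborFinset i).image f) ?_).trans card_image_le
            intro x hx
            rw [mem_filter] at hx
            obtain ⟨j, rfl⟩ := hfsurj x hx.1
            rw [Finset.mem_image]
            exact ⟨j, by rw [mem_neighborFinset]; exact hx.2, rfl⟩
          exact_mod_cast this
        have : Nonempty (Fin X.card) := ⟨⟨0, hcard1⟩⟩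
        have hmin : (G'.minDegree : ℝ) ≥ (1 - 1 / (m : ℝ) + ε) * X.card := by
          obtain ⟨i, hi⟩ := G'.exists_minimal_degree_vertex
          rw [hi]
          exact hdeg i
        obtain ⟨φ⟩ := hN X.card hcardN (G := G') hmin
        refine ⟨fun p => univ.image (fun j : Fin t => f (φ (p, j))), ⟨?_, ?_⟩, ?_⟩
        · intro p
          rw [card_image_of_injective, card_univ, Fintype.card_fin]
          intro i j hij
          have := φ.injective (hfinj hij)
          exact (Prod.mk.inj this).2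
        · intro p q hpq x hx y hy
          rw [Finset.mem_image] at hx hy
          obtain ⟨i, -, rfl⟩ := hx
          obtain ⟨j, -, rfl⟩ := hy
          have : (completeEquipartiteGraph (m + 1) t).Adj (p, i) (q, j) := by
            rw [completeEquipartiteGraph_adj]; exact hpq
          exact φ.toHom.map_adj this
        · intro p x hx
          rw [Finset.mem_image] at hx
          obtain ⟨i, -, rfl⟩ := hx
          exact hfX _
      have hsub : X \ {v} ⊂ X := by
        refine Finset.ssubset_iff_subset_ne.2 ⟨sdiff_subset, fun h => ?_⟩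
        have : v ∈ X \ {v} := by rw [h]; exact hvX
        simp at this
      have hih := ih (X \ {v}) hsub (fun ⟨B, hB, hBX⟩ => hX ⟨B, hB, fun p => (hBX p).trans sdiff_subset⟩)
      have h1 := E2_sdiff G X {v} (singleton_subset_iff.2 hvX)
      rw [sum_nb_comm, sum_singleton] at h1
      have h2 : (X \ {v}).card = X.card - 1 := by
        rw [card_sdiff_of_subset (singleton_subset_iff.2 hvX), card_singleton]
      rw [h2, Nat.cast_sub hcard1, Nat.cast_one] at hih
      have h1' : (E2 G X : ℝ) ≤ E2 G (X \ {v}) + 2 * nb G v X := by exact_mod_cast h1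
      nlinarith

/-- the main induction of the upper bound -/
lemma upper_main (m t : ℕ) (hm : 2 ≤ m) (ht : 2 ≤ t) (ε C : ℝ) (hε : 0 < ε)
    (G : SimpleGraph V) (c : V → V → Fin (m + 1))
    (hc : ∀ v a b, G.Adj a b → a ≠ v → b ≠ v → c v a ≠ c v b)
    (hs : ∀ v (γ : Fin (m + 1)), ∃ w, G.Adj v w ∧ c v w = γ)
    (hn : m + 3 ≤ Fintype.card V)
    (hC : ∀ X : Finset V,
      (¬ ∃ B : Fin (m + 1) → Finset V, IsBlob G (m + 1) t B ∧ ∀ p, B p ⊆ X) →
      (E2 G X : ℝ) ≤ (1 - 1 / (m : ℝ) + ε) * X.card * (X.card + 1) + C)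
    (X : Finset V) : ∀ (D : Finset (Finset V)), (∀ d ∈ D, Cell c d) →
      (∀ v, v ∉ X → ∃ d ∈ D, v ∈ d) → t * D.card + X.card ≤ Fintype.card V →
      (E2 G X : ℝ) ≤ (1 - 1 / (m : ℝ) + ε) * X.card * (X.card + (m + 1) * t) + C
        + 3 * Fintype.card V / t * X.card := by
  induction X using Finset.strongInduction with
  | H X ih =>
    intro D hD hXD hcard
    have hm' : (2 : ℝ) ≤ m := by exact_mod_cast hm
    have ht' : (2 : ℝ) ≤ t := by exact_mod_cast ht
    have hth : 0 ≤ 1 - 1 / (m : ℝ) := by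
      have : 1 / (m : ℝ) ≤ 1 := by rw [div_le_one (by linarith)]; linarith
      linarith
    have hx0 : (0 : ℝ) ≤ X.card := by positivity
    by_cases hblob : ∃ B : Fin (m + 1) → Finset V, IsBlob G (m + 1) t B ∧ ∀ p, B p ⊆ X
    · obtain ⟨B, hB, hBX⟩ := hblob
      have hstep := blob_step G (m + 1) t (by omega) ht c hc hs (by omega) X B hB hBX D hD hXD
      have hUX : univ.biUnion B ⊆ X := biUnion_subset.2 (fun p _ => hBX p)
      have hUc : (univ.biUnion B).card = (m + 1) * t := hB.card_union
      have hX' : (X \ univ.biUnion B).card + (m + 1) * t = X.card := by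
        rw [← hUc]; exact card_sdiff_add_card_eq_card hUX
      have hss : X \ univ.biUnion B ⊂ X := by
        refine Finset.ssubset_iff_subset_ne.2 ⟨sdiff_subset, fun h => ?_⟩
        have h1 : (X \ univ.biUnion B).card = X.card := by rw [h]
        have h2 : 0 < (m + 1) * t := by positivity
        omega
      have hih := ih _ hss (D ∪ univ.image B) ?_ ?_ ?_
      · have hE := E2_sdiff G X (univ.biUnion B) hUX
        have hE2 : ∑ w ∈ X, nb G w (univ.biUnion B) ≤ ∑ w ∈ X, ∑ p, nb G w (B p) :=
          sum_le_sum (fun w _ => nb_biUnion_le G w B)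
        have hE3 : E2 G X ≤ E2 G (X \ univ.biUnion B) + (t * (2 * (m + 1) - 3) * X.card
            + t * (m + 1) * D.card + 2 * (m + 1) * X.card) := by omega
        have e1 : 2 * (m + 1) - 3 = 2 * m - 1 := by omega
        rw [e1] at hE3
        have hE4 : (E2 G X : ℝ) ≤ E2 G (X \ univ.biUnion B) + (t * (2 * m - 1) * X.card
            + t * (m + 1) * D.card + 2 * (m + 1) * X.card) := by
          have h := (Nat.cast_le (α := ℝ)).2 hE3
          push_cast [Nat.cast_sub (show 1 ≤ 2 * m by omega)] at h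
          linarith
        have hx' : ((X \ univ.biUnion B).card : ℝ) = X.card - (m + 1) * t := by
          have h := congrArg (Nat.cast (R := ℝ)) hX'
          push_cast at h
          linarith
        rw [hx'] at hih
        have hcard' : (t : ℝ) * D.card + X.card ≤ Fintype.card V := by exact_mod_cast hcard
        set n : ℝ := (Fintype.card V : ℝ) with hndef
        set x : ℝ := (X.card : ℝ) with hxdef
        set d : ℝ := (D.card : ℝ) with hddef
        have hd0 : 0 ≤ d := by positivity
        have ht0 : (0 : ℝ) < t := by linarith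
        have hm0 : (0 : ℝ) < m := by linarith
        -- error terms
        have herr : t * (m + 1) * d + 2 * (m + 1) * x ≤ 3 * (m + 1) * n := by
          have h1 : t * d ≤ n := by linarith
          have h2 : x ≤ n := by nlinarith
          nlinarith
        have hmain : t * (2 * (m : ℝ) - 1) * x ≤ 2 * (1 - 1 / (m : ℝ)) * ((m + 1) * t) * x := by
          have h1 : 2 * (m : ℝ) - 1 ≤ 2 * (1 - 1 / (m : ℝ)) * (m + 1) := by
            have h2 : 2 * (1 - 1 / (m : ℝ)) * (m + 1) = 2 * m - 2 / m := by
              field_simp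
              ring
            rw [h2]
            have : 2 / (m : ℝ) ≤ 1 := by rw [div_le_one hm0]; exact hm'
            linarith
          have h3 : 0 ≤ t * x := by positivity
          nlinarith
        have hlast : 3 * n / t * (x - (m + 1) * t) = 3 * n / t * x - 3 * (m + 1) * n := by
          field_simp
        rw [hlast] at hih
        have hexp : (1 - 1 / (m : ℝ) + ε) * (x - (m + 1) * t) * (x - (m + 1) * t + (m + 1) * t)
            = (1 - 1 / (m : ℝ) + ε) * x * (x + (m + 1) * t)
              - 2 * (1 - 1 / (m : ℝ) + ε) * ((m + 1) * t) * x := by ring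
        rw [hexp] at hih
        have hpos : 0 ≤ 2 * ε * ((m + 1) * t) * x := by positivity
        linarith
      · intro d hd
        rw [Finset.mem_union] at hd
        rcases hd with hd | hd
        · exact hD d hd
        · rw [Finset.mem_image] at hd
          obtain ⟨p, -, rfl⟩ := hd
          exact (hB.rigid hc ht).cell p
      · intro v hv
        by_cases hvX : v ∈ X
        · have : v ∈ univ.biUnion B := by
            by_contra hcon
            exact hv (Finset.mem_sdiff.2 ⟨hvX, hcon⟩)
          rw [Finset.mem_biUnion] at this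
          obtain ⟨p, -, hp⟩ := this
          exact ⟨B p, Finset.mem_union_right _ (Finset.mem_image_of_mem _ (mem_univ p)), hp⟩
        · obtain ⟨d, hd, hvd⟩ := hXD v hvX
          exact ⟨d, Finset.mem_union_left _ hd, hvd⟩
      · have h1 : (D ∪ univ.image B).card ≤ D.card + (m + 1) := by
          refine (Finset.card_union_le _ _).trans (Nat.add_le_add_left ?_ _)
          refine card_image_le.trans ?_
          rw [card_univ, Fintype.card_fin]
        have h2 : t * (D ∪ univ.image B).card ≤ t * D.card + (m + 1) * t := by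
          calc t * (D ∪ univ.image B).card ≤ t * (D.card + (m + 1)) := Nat.mul_le_mul_left _ h1
            _ = _ := by ring
        omega
    · have h1 := hC X hblob
      have h2 : (1 - 1 / (m : ℝ) + ε) * X.card * (X.card + 1) ≤
          (1 - 1 / (m : ℝ) + ε) * X.card * (X.card + (m + 1) * t) := by
        apply mul_le_mul_of_nonneg_left _ (by positivity)
        nlinarith
      have h3 : 0 ≤ 3 * (Fintype.card V : ℝ) / t * X.card := by positivity
      linarith

end Upper

section Lower

/-- length of the path `(s, P)` -/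
def len (a e : ℕ) (s P : ℕ) : ℕ := if s = 0 ∧ P = 0 then a + e else a

/-- the vertices of the dense critical graph -/
inductive Vx (q a e : ℕ) : Type
  | t (j : Fin (q + 2)) : Vx q a e
  | g (P : Fin (q + 1)) (p : Fin 2 → Fin a) : Vx q a e
  | w (s : Fin 2) (P : Fin (q + 1)) (x : Fin a) : Vx q a e
  | z (s : Fin 2) (P : Fin (q + 1)) (i : Fin (len a e s P)) : Vx q a e

variable {q a e : ℕ}

/-- the edges, each listed in one direction -/
def rel : Vx q a e → Vx q a e → Prop
  | .t i, .t j => i ≠ j
  | .t j, .w s _ _ => j.val ≠ s.val ∧ j.val ≠ q + 1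
  | .t j, .z s P i => (2 ≤ j.val ∧ j.val ≤ q) ∨ (j.val = q + 1 ∧ a ≤ i.val) ∨
      (i.val = 0 ∧ j.val = s.val) ∨ (i.val + 1 = len a e s P ∧ j.val = (s.val + len a e s P) % 2)
  | .g P _, .g P' _ => P ≠ P'
  | .g P p, .w s P' x => P = P' ∧ p s = x
  | .w s P x, .z s' P' i => s = s' ∧ P = P' ∧ x.val = i.val
  | .z s P i, .z s' P' i' => s = s' ∧ P = P' ∧ i.val + 1 = i'.val
  | _, _ => False

/-- the dense critical graph -/
def Gr (q a e : ℕ) : SimpleGraph (Vx q a e) := SimpleGraph.fromRel rel

/-- the colourings of the vertex-deleted subgraphs -/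
def col (P0 : Fin (q + 1)) (i0 δ : Fin 2 → ℕ) (ω : Fin 2 → Fin a → ℕ) (h : (Fin 2 → Fin a) → ℕ) :
    Vx q a e → ℕ
  | .t j => j.val
  | .g P p => if P = P0 then h p else if P.val < P0.val then P.val + 2 else P.val + 1
  | .w s P x => if P = P0 then ω s x else s.val
  | .z s P i => if P = P0 then
        (if i.val = i0 s then δ s else if i0 s < i.val then (s.val + i.val) % 2
          else (s.val + i.val + 1) % 2)
      else (if a ≤ i.val then (s.val + i.val) % 2 else if (a - 1 - i.val) % 2 = 0 then q + 1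
        else 1 - s.val)

lemma len_ge (s P : ℕ) : a ≤ len a e s P := by unfold len; split_ifs <;> omega

lemma proper_of (hq : 1 ≤ q) (ha : 1 ≤ a) (x : Vx q a e) (P0 : Fin (q + 1)) (i0 δ : Fin 2 → ℕ)
    (ω : Fin 2 → Fin a → ℕ) (h : (Fin 2 → Fin a) → ℕ)
    (hh : ∀ p, h p < 2)
    (hgw : ∀ s p, Vx.g P0 p ≠ x → Vx.w s P0 (p s) ≠ x → h p ≠ ω s (p s))
    (hw : ∀ s x', Vx.w s P0 x' ≠ x → (ω s x' = s.val ∨ ω s x' = q + 1 ∨
      (∃ j : Fin (q + 2), x = Vx.t j ∧ ω s x' = j.val)))
    (hwz : ∀ s x', Vx.w s P0 x' ≠ x → (x'.val = i0 s → (∀ i, i.val = i0 s → Vx.z s P0 i ≠ x) → ω s x' ≠ δ s) ∧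
      (x'.val ≠ i0 s → 2 ≤ ω s x'))
    (hi0 : ∀ s : Fin 2, i0 s < len a e s P0)
    (hδ : ∀ s, (∀ i, i.val = i0 s → Vx.z s P0 i ≠ x) →
      (2 ≤ δ s ∧ δ s ≤ q + 1) ∧ (i0 s < a → δ s = q + 1 ∨ ∃ j : Fin (q + 2), x = Vx.t j ∧ δ s = j.val) ∧
      (a ≤ i0 s → ∃ j : Fin (q + 2), x = Vx.t j ∧ δ s = j.val ∧ j.val = q + 1)) :
    ∀ u v, rel u v → u ≠ x → v ≠ x → u ≠ v → col (e := e) P0 i0 δ ω h u ≠ col P0 i0 δ ω h v := by
  intro u v huv hux hvx hne
  match u, v, huv, hux, hvx, hne with
  | .t i, .t j, huv, hux, hvx, hne =>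
    simp only [rel] at huv
    simp only [col]
    exact fun h => huv (Fin.ext h)
  | .t j, .w s P x', huv, hux, hvx, hne =>
    simp only [rel] at huv
    simp only [col]
    split_ifs with hP
    · subst hP
      rcases hw s x' hvx with h1 | h1 | ⟨j', h1, h2⟩
      · omega
      · omega
      · intro h3
        apply hux
        rw [h1]
        congr 1
        exact Fin.ext (by omega)
    · exact huv.1
  | .t j, .z s P i, huv, hux, hvx, hne =>
    have hs := s.isLt
    have hlen := len_ge (a := a) (e := e) s P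
    have hi := i.isLt
    simp only [rel] at huv
    simp only [col]
    by_cases hP : P = P0
    · subst hP
      have hi0s := hi0 s
      simp only [if_true]
      split_ifs with h1 h2
      · have hz : ∀ i', i'.val = i0 s → Vx.z s P i' ≠ x := by
          intro i' hi'
          have : i' = i := Fin.ext (by omega)
          rw [this]; exact hvx
        obtain ⟨h5, h6, h7⟩ := hδ s hz
        intro h8
        rcases lt_or_ge (i0 s) a with hlt | hge
        · rcases h6 hlt with h9 | ⟨j', h9, h10⟩
          · clear h6 h7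
            omega
          · apply hux; rw [h9]; congr 1; exact Fin.ext (by omega)
        · obtain ⟨j', h9, h10, h11⟩ := h7 hge
          apply hux; rw [h9]; congr 1; exact Fin.ext (by omega)
      · omega
      · omega
    · simp only [if_neg hP]
      split_ifs <;> omega
  | .g P p, .g P' p', huv, hux, hvx, hne =>
    simp only [rel] at huv
    have h1 := hh p
    have h2 := hh p'
    have h3 : P.val ≠ P'.val := fun h => huv (Fin.ext h)
    simp only [col, Fin.ext_iff]
    split_ifs <;> omega
  | .g P p, .w s P' x', huv, hux, hvx, hne =>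
    simp only [rel] at huv
    obtain ⟨rfl, rfl⟩ := huv
    have hs := s.isLt
    simp only [col]
    split_ifs with h1 h2
    · subst h1; exact hgw s p hux hvx
    · omega
    · have : P.val ≠ P0.val := fun h => h1 (Fin.ext h)
      omega
  | .w s P x', .z s' P' i, huv, hux, hvx, hne =>
    simp only [rel] at huv
    obtain ⟨rfl, rfl, h1⟩ := huv
    have hs := s.isLt
    have hx' := x'.isLt
    simp only [col]
    split_ifs with h2 h3 h4 h4 h5
    · subst h2
      refine (hwz s x' hux).1 (by omega) ?_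
      intro i' hi'
      have : i' = i := Fin.ext (by omega)
      rw [this]; exact hvx
    · subst h2
      have := (hwz s x' hux).2 (by omega)
      omega
    · subst h2
      have := (hwz s x' hux).2 (by omega)
      omega
    · omega
    · omega
    · omega
  | .z s P i, .z s' P' i', huv, hux, hvx, hne =>
    simp only [rel] at huv
    obtain ⟨rfl, rfl, h1⟩ := huv
    have hs := s.isLt
    simp only [col]
    by_cases h2 : P = P0
    · subst h2
      simp only [if_true]
      split_ifs with h3 h4 h5 h6 h7 h8 h9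
      · omega
      · have hz : ∀ i'', i''.val = i0 s → Vx.z s P i'' ≠ x := by
          intro i'' hi''
          have : i'' = i := Fin.ext (by omega)
          rw [this]; exact hux
        have := (hδ s hz).1
        omega
      · have hz : ∀ i'', i''.val = i0 s → Vx.z s P i'' ≠ x := by
          intro i'' hi''
          have : i'' = i := Fin.ext (by omega)
          rw [this]; exact hux
        have := (hδ s hz).1
        omega
      · have hz : ∀ i'', i''.val = i0 s → Vx.z s P i'' ≠ x := by
          intro i'' hi''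
          have : i'' = i' := Fin.ext (by omega)
          rw [this]; exact hvx
        have := (hδ s hz).1
        omega
      · omega
      · omega
      · have hz : ∀ i'', i''.val = i0 s → Vx.z s P i'' ≠ x := by
          intro i'' hi''
          have : i'' = i' := Fin.ext (by omega)
          rw [this]; exact hvx
        have := (hδ s hz).1
        omega
      · omega
      · omega
    · simp only [if_neg h2]
      split_ifs <;> omega

lemma col_lt (P0 : Fin (q + 1)) (i0 δ : Fin 2 → ℕ)
    (ω : Fin 2 → Fin a → ℕ) (h : (Fin 2 → Fin a) → ℕ) (hq : 1 ≤ q)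
    (hh : ∀ p, h p < 2) (hω : ∀ s x', ω s x' < q + 2) (hδ : ∀ s, δ s < q + 2) (v : Vx q a e) :
    col P0 i0 δ ω h v < q + 2 := by
  match v with
  | .t j => simp only [col]; exact j.isLt
  | .g P p =>
    have h1 := hh p
    have h2 := P.isLt
    have h3 := P0.isLt
    simp only [col]
    split_ifs with h4 h5
    · omega
    · omega
    · have : P.val ≠ P0.val := fun h => h4 (Fin.ext h)
      omega
  | .w s P x' =>
    have h1 := hω s x'
    have h2 := s.isLt
    simp only [col]
    split_ifs <;> omega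
  | .z s P i =>
    have h1 := hδ s
    have h2 := s.isLt
    simp only [col]
    split_ifs <;> omega

lemma colorable_of (x : Vx q a e) (φ : Vx q a e → ℕ) (hφ : ∀ v, φ v < q + 2)
    (hp : ∀ u v, rel u v → u ≠ x → v ≠ x → u ≠ v → φ u ≠ φ v) :
    ((Gr q a e).induce {x}ᶜ).Colorable (q + 2) := by
  refine ⟨⟨fun v => ⟨φ v.1, hφ v.1⟩, ?_⟩⟩
  rintro ⟨u, hu⟩ ⟨v, hv⟩ huv
  have hux : u ≠ x := by simpa using hu
  have hvx : v ≠ x := by simpa using hv
  have huv' : (Gr q a e).Adj u v := by simpa using huv
  rw [Gr, fromRel_adj] at huv'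
  simp only [top_adj, ne_eq, Fin.mk.injEq]
  rcases huv'.2 with h | h
  · exact hp u v h hux hvx huv'.1
  · exact (hp v u h hvx hux huv'.1.symm).symm

lemma colorable_of_col (hq : 1 ≤ q) (ha : 1 ≤ a) (x : Vx q a e) (P0 : Fin (q + 1)) (i0 δ : Fin 2 → ℕ)
    (ω : Fin 2 → Fin a → ℕ) (h : (Fin 2 → Fin a) → ℕ)
    (hh : ∀ p, h p < 2)
    (hgw : ∀ s p, Vx.g P0 p ≠ x → Vx.w s P0 (p s) ≠ x → h p ≠ ω s (p s))
    (hw : ∀ s x', Vx.w s P0 x' ≠ x → (ω s x' = s.val ∨ ω s x' = q + 1 ∨
      (∃ j : Fin (q + 2), x = Vx.t j ∧ ω s x' = j.val)))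
    (hwz : ∀ s x', Vx.w s P0 x' ≠ x → (x'.val = i0 s → (∀ i, i.val = i0 s → Vx.z s P0 i ≠ x) → ω s x' ≠ δ s) ∧
      (x'.val ≠ i0 s → 2 ≤ ω s x'))
    (hi0 : ∀ s : Fin 2, i0 s < len a e s P0)
    (hδ : ∀ s, (∀ i, i.val = i0 s → Vx.z s P0 i ≠ x) →
      (2 ≤ δ s ∧ δ s ≤ q + 1) ∧ (i0 s < a → δ s = q + 1 ∨ ∃ j : Fin (q + 2), x = Vx.t j ∧ δ s = j.val) ∧
      (a ≤ i0 s → ∃ j : Fin (q + 2), x = Vx.t j ∧ δ s = j.val ∧ j.val = q + 1))
    (hω : ∀ s x', ω s x' < q + 2) (hδ' : ∀ s, δ s < q + 2) :
    ((Gr q a e).induce {x}ᶜ).Colorable (q + 2) :=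
  colorable_of x (col P0 i0 δ ω h) (col_lt P0 i0 δ ω h hq hh hω hδ')
    (proper_of hq ha x P0 i0 δ ω h hh hgw hw hwz hi0 hδ)

/-- deleting a grid vertex -/
lemma del_g (hq : 1 ≤ q) (ha : 1 ≤ a) (P0 : Fin (q + 1)) (p0 : Fin 2 → Fin a) :
    ((Gr q a e).induce {Vx.g P0 p0}ᶜ).Colorable (q + 2) := by
  refine colorable_of_col hq ha _ P0 (fun s => (p0 s).val) (fun _ => q + 1)
    (fun s x' => if x' = p0 s then s.val else q + 1) (fun p => if p 0 = p0 0 then 1 else 0)
    ?_ ?_ ?_ ?_ ?_ ?_ ?_ ?_
  · intro p; try dsimp only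
    split_ifs <;> omega
  · intro s p hp _
    have hne : p ≠ p0 := fun h => hp (by rw [h])
    have hor : p 0 ≠ p0 0 ∨ p 1 ≠ p0 1 := by
      by_contra hcon
      push Not at hcon
      exact hne (funext (fun i => by fin_cases i; exacts [hcon.1, hcon.2]))
    have hs2 := s.isLt
    by_cases hs0 : s = 0
    · subst hs0
      simp only [Fin.val_zero]
      split_ifs <;> omega
    · have hs1 : s = 1 := Fin.ext (by
        have : s.val ≠ 0 := fun h => hs0 (Fin.ext h)
        simp only [Fin.val_one]
        omega)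
      subst hs1
      simp only [Fin.val_one]
      split_ifs with h1 h2 h2
      · rcases hor with h | h
        · exact absurd h1 h
        · exact absurd h2 h
      · omega
      · omega
      · omega
  · intro s x' _
    try dsimp only
    split_ifs <;> simp
  · intro s x' _
    have hs := s.isLt
    try dsimp only
    refine ⟨fun h1 _ => ?_, fun h1 => ?_⟩
    · rw [if_pos (Fin.ext h1)]; omega
    · rw [if_neg (fun h => h1 (by rw [h]))]; omega
  · intro s
    have h1 := (p0 s).isLt
    have h2 := len_ge (a := a) (e := e) s P0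
    try dsimp only
    omega
  · intro s _
    have h1 := (p0 s).isLt
    refine ⟨⟨by omega, le_rfl⟩, fun _ => Or.inl rfl, fun h => absurd h ?_⟩
    try dsimp only
    omega
  · intro s x'
    have hs := s.isLt
    try dsimp only
    split_ifs <;> omega
  · intro s; try dsimp only
    omega

/-- the generic case: one of the two gadgets of the part `P0` is relaxed -/
lemma del_generic (hq : 1 ≤ q) (ha : 1 ≤ a) (x : Vx q a e) (P0 : Fin (q + 1)) (s0 : Fin 2)
    (i1 d : ℕ) (hi1 : i1 < len a e s0 P0) (hd : 2 ≤ d ∧ d ≤ q + 1)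
    (hx : (∃ x0 : Fin a, x = Vx.w s0 P0 x0 ∧ i1 = x0.val ∧ d = q + 1) ∨
      (∃ i : Fin (len a e s0 P0), x = Vx.z s0 P0 i ∧ i1 = i.val) ∨
      (∃ j : Fin (q + 2), x = Vx.t j ∧ d = j.val ∧ ((d ≤ q ∧ i1 = 0) ∨ (d = q + 1 ∧ a ≤ i1)))) :
    ((Gr q a e).induce {x}ᶜ).Colorable (q + 2) := by
  refine colorable_of_col hq ha x P0 (fun s => if s = s0 then i1 else 0)
    (fun s => if s = s0 then d else q + 1)
    (fun s x' => if s = s0 then q + 1 else if x'.val = 0 then s.val else q + 1)
    (fun _ => s0.val) ?_ ?_ ?_ ?_ ?_ ?_ ?_ ?_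
  · intro p; exact s0.isLt
  · intro s p _ _
    have h1 := s0.isLt
    have h2 := s.isLt
    try dsimp only
    split_ifs with h3 h4
    · omega
    · intro h5; exact h3 (Fin.ext h5.symm)
    · omega
  · intro s x' _
    try dsimp only
    split_ifs <;> simp
  · intro s x' hsx
    have h2 := s.isLt
    try dsimp only
    refine ⟨fun h1 h3 => ?_, fun h1 => ?_⟩
    · by_cases hs : s = s0
      · subst hs
        rw [if_pos rfl] at h1 h3
        rw [if_pos rfl, if_pos rfl]
        rcases hx with ⟨x0, hx0, hx1, hx2⟩ | ⟨i, hx0, hx1⟩ | ⟨j, hx0, hx1, hx2⟩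
        · exact absurd (show Vx.w s P0 x' = x by rw [hx0, Fin.ext (h1.trans hx1)]) hsx
        · exact absurd hx0.symm (h3 i hx1.symm)
        · have := x'.isLt
          omega
      · rw [if_neg hs] at h1
        rw [if_neg hs, if_neg hs, if_pos h1]
        omega
    · by_cases hs : s = s0
      · rw [if_pos hs]; omega
      · rw [if_neg hs] at h1
        rw [if_neg hs, if_neg h1]; omega
  · intro s
    try dsimp only
    split_ifs with hs
    · subst hs; exact hi1
    · have h2 := len_ge (a := a) (e := e) s P0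
      omega
  · intro s hz
    try dsimp only at hz ⊢
    by_cases hs : s = s0
    · subst hs
      simp only [if_true] at hz ⊢
      refine ⟨hd, ?_, ?_⟩
      · intro h1
        rcases hx with ⟨x0, hx0, hx1, hx2⟩ | ⟨i, hx0, hx1⟩ | ⟨j, hx0, hx1, hx2⟩
        · exact Or.inl hx2
        · exact absurd hx0.symm (hz i hx1.symm)
        · exact Or.inr ⟨j, hx0, hx1⟩
      · intro h1
        rcases hx with ⟨x0, hx0, hx1, hx2⟩ | ⟨i, hx0, hx1⟩ | ⟨j, hx0, hx1, hx2⟩
        · have := x0.isLt
          omega
        · exact absurd hx0.symm (hz i hx1.symm)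
        · exact ⟨j, hx0, hx1, by omega⟩
    · simp only [if_neg hs] at hz ⊢
      exact ⟨⟨by omega, le_rfl⟩, fun _ => Or.inl trivial, fun h => absurd h (by omega)⟩
  · intro s x'
    have h2 := s.isLt
    try dsimp only
    split_ifs <;> omega
  · intro s
    try dsimp only
    split_ifs <;> omega

/-- deleting one of the first two reference vertices -/
lemma del_t (hq : 1 ≤ q) (ha : 1 ≤ a) (c : Fin (q + 2)) (hc : c.val < 2) :
    ((Gr q a e).induce {Vx.t c}ᶜ).Colorable (q + 2) := by
  refine colorable_of_col hq ha _ 0 (fun _ => 0) (fun _ => q + 1)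
    (fun _ x' => if x'.val = 0 then c.val else q + 1) (fun _ => 1 - c.val) ?_ ?_ ?_ ?_ ?_ ?_ ?_ ?_
  · intro p; try dsimp only
    omega
  · intro s p _ _
    try dsimp only
    split_ifs <;> omega
  · intro s x' _
    try dsimp only
    split_ifs
    · exact Or.inr (Or.inr ⟨c, rfl, rfl⟩)
    · simp
  · intro s x' _
    try dsimp only
    refine ⟨fun h1 _ => ?_, fun h1 => ?_⟩
    · rw [if_pos h1]; omega
    · rw [if_neg h1]; omega
  · intro s
    have h2 := len_ge (a := a) (e := e) s (0 : Fin (q + 1))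
    try dsimp only
    omega
  · intro s _
    exact ⟨⟨by omega, le_rfl⟩, fun _ => Or.inl rfl, fun h => absurd h (by omega)⟩
  · intro s x'
    try dsimp only
    split_ifs <;> omega
  · intro s; try dsimp only
    omega

/-- every vertex-deleted subgraph is `(q+2)`-colourable -/
lemma del_colorable (hq : 1 ≤ q) (ha : 1 ≤ a) (he : 1 ≤ e) (x : Vx q a e) :
    ((Gr q a e).induce {x}ᶜ).Colorable (q + 2) := by
  match x with
  | .t c =>
    have hc := c.isLt
    rcases lt_or_ge c.val 2 with h1 | h1
    · exact del_t hq ha c h1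
    · rcases lt_or_ge q c.val with h2 | h2
      · refine del_generic hq ha _ 0 0 a (q + 1) ?_ ⟨by omega, le_rfl⟩
          (Or.inr (Or.inr ⟨c, rfl, by omega, Or.inr ⟨rfl, le_rfl⟩⟩))
        simp only [len, Fin.val_zero, and_self, if_true]
        omega
      · refine del_generic hq ha _ 0 0 0 c.val ?_ ⟨h1, by omega⟩
          (Or.inr (Or.inr ⟨c, rfl, rfl, Or.inl ⟨h2, rfl⟩⟩))
        have h2 := len_ge (a := a) (e := e) (0 : Fin 2) (0 : Fin (q + 1))
        omega
  | .g P0 p0 => exact del_g hq ha P0 p0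
  | .w s P0 x0 =>
    refine del_generic hq ha _ P0 s x0.val (q + 1) ?_ ⟨by omega, le_rfl⟩
      (Or.inl ⟨x0, rfl, rfl, rfl⟩)
    have h2 := len_ge (a := a) (e := e) s P0
    have := x0.isLt
    omega
  | .z s P0 i =>
    exact del_generic hq ha _ P0 s i.val (q + 1) i.isLt ⟨by omega, le_rfl⟩
      (Or.inr (Or.inl ⟨i, rfl, rfl⟩))

/-- the graph is not `(q+2)`-colourable -/
lemma not_colorable (hq : 1 ≤ q) (ha : 1 ≤ a) : ¬ (Gr q a e).Colorable (q + 2) := by
  rintro ⟨C⟩
  have hadj : ∀ u v : Vx q a e, u ≠ v → rel u v → C u ≠ C v := by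
    intro u v hne h
    apply C.valid
    rw [Gr, fromRel_adj]
    exact ⟨hne, Or.inl h⟩
  -- the reference clique receives all colours
  let σ : Fin (q + 2) → Fin (q + 2) := fun j => C (.t j)
  have hσ : Function.Injective σ := by
    intro i j hij
    by_contra hne
    exact hadj (.t i) (.t j) (by simpa using hne) hne hij
  have hσb : Function.Bijective σ := Finite.injective_iff_bijective.1 hσ
  let τ := (Equiv.ofBijective σ hσb).symm
  let φ : Vx q a e → ℕ := fun v => (τ (C v)).val
  have hφt : ∀ j, φ (.t j) = j.val := by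
    intro j
    have : τ (C (.t j)) = j := (Equiv.ofBijective σ hσb).symm_apply_apply j
    simp only [φ, this]
  have hφlt : ∀ v, φ v < q + 2 := fun v => (τ (C v)).isLt
  have hφ : ∀ u v : Vx q a e, u ≠ v → rel u v → φ u ≠ φ v := by
    intro u v hne h heq
    exact hadj u v hne h (τ.injective (Fin.ext heq))
  have hφtv : ∀ (j : ℕ) (hj : j < q + 2) (v : Vx q a e), Vx.t ⟨j, hj⟩ ≠ v → rel (.t ⟨j, hj⟩) v → φ v ≠ j := by
    intro j hj v hne h
    have := hφ _ _ hne h
    rw [hφt] at this
    exact fun h => this h.symm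
  -- the gadgets force a vertex of colour s
  have key : ∀ (s : Fin 2) (P : Fin (q + 1)), ∃ x : Fin a, φ (.w s P x) = s.val := by
    intro s P
    by_contra hcon
    push Not at hcon
    have hs := s.isLt
    have hw : ∀ x, φ (.w s P x) = q + 1 := by
      intro x
      by_contra hne
      have h1 := hφlt (.w s P x)
      refine hφtv (φ (.w s P x)) h1 (.w s P x) (by simp) ?_ rfl
      simp only [rel]
      exact ⟨hcon x, hne⟩
    have hz : ∀ i : Fin (len a e s P), φ (.z s P i) < 2 := by
      intro i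
      by_contra hge
      push Not at hge
      have h1 := hφlt (.z s P i)
      by_cases h2 : φ (.z s P i) = q + 1
      · rcases lt_or_ge i.val a with h3 | h3
        · have h4 := hφ (.w s P ⟨i.val, h3⟩) (.z s P i) (by simp) (by simp [rel])
          rw [hw] at h4
          exact h4 h2.symm
        · refine hφtv (φ (.z s P i)) h1 (.z s P i) (by simp) ?_ rfl
          simp only [rel]
          exact Or.inr (Or.inl ⟨h2, h3⟩)
      · refine hφtv (φ (.z s P i)) h1 (.z s P i) (by simp) ?_ rfl
        simp only [rel]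
        exact Or.inl ⟨hge, by omega⟩
    have hlen := len_ge (a := a) (e := e) s P
    have hind : ∀ i (hi : i < len a e s P), φ (.z s P ⟨i, hi⟩) = (s.val + i + 1) % 2 := by
      intro i
      induction i with
      | zero =>
        intro hi
        have h1 := hz ⟨0, hi⟩
        have h2 : φ (.z s P ⟨0, hi⟩) ≠ s.val := by
          refine hφtv s.val (by omega) _ (by simp) ?_
          exact Or.inr (Or.inr (Or.inl ⟨rfl, rfl⟩))
        omega
      | succ i ih =>
        intro hi
        have h1 := hz ⟨i + 1, hi⟩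
        have h2 := ih (by omega)
        have h3 := hφ (.z s P ⟨i, by omega⟩) (.z s P ⟨i + 1, hi⟩) (by simp) (by simp [rel])
        rw [h2] at h3
        omega
    have hl := hind (len a e s P - 1) (by omega)
    have h3 : φ (.z s P ⟨len a e s P - 1, by omega⟩) ≠ (s.val + len a e s P) % 2 := by
      refine hφtv _ (by omega) _ (by simp) ?_
      exact Or.inr (Or.inr (Or.inr ⟨by simp only []; omega, rfl⟩))
    omega
  choose p hp using key
  have hg : ∀ P, 2 ≤ φ (.g P (fun s => p s P)) := by
    intro P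
    have h1 : ∀ s : Fin 2, φ (.g P (fun s => p s P)) ≠ s.val := by
      intro s
      have := hφ (.g P (fun s => p s P)) (.w s P (p s P)) (by simp) (by simp [rel])
      rwa [hp] at this
    have h2 := h1 0
    have h3 := h1 1
    simp only [Fin.val_zero, Fin.val_one] at h2 h3
    omega
  have hinj : Function.Injective (fun P : Fin (q + 1) =>
      (⟨φ (.g P (fun s => p s P)) - 2, by have := hφlt (.g P (fun s => p s P)); have := hg P; omega⟩ : Fin q)) := by
    intro P P' h
    by_contra hne
    have h1 := hφ (.g P (fun s => p s P)) (.g P' (fun s => p s P')) (by simp [hne]) (by simpa [rel] using hne)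
    have h2 := hg P
    have h3 := hg P'
    simp only [Fin.mk.injEq] at h
    omega
  have := Fintype.card_le_of_injective _ hinj
  simp at this

end Lower

section Final

lemma extend_colorable {V : Type} (G : SimpleGraph V) (x : V) (s : ℕ)
    (h : (G.induce {x}ᶜ).Colorable s) : G.Colorable (s + 1) := by
  classical
  obtain ⟨c⟩ := h
  refine ⟨⟨fun u => if h : u = x then Fin.last s else (c ⟨u, by simpa using h⟩).castSucc, ?_⟩⟩
  intro a b hab
  simp only [top_adj]
  by_cases h1 : a = x <;> by_cases h2 : b = x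
  · subst h1; subst h2; exact absurd hab (G.irrefl)
  · simp only [h1, h2, dite_true, dite_false]
    exact (Fin.castSucc_lt_last _).ne'
  · simp only [h1, h2, dite_true, dite_false]
    exact (Fin.castSucc_lt_last _).ne
  · simp only [h1, h2, dite_false]
    intro h
    exact c.valid (v := ⟨a, by simpa using h1⟩) (w := ⟨b, by simpa using h2⟩)
      (by simpa using hab) (Fin.castSucc_injective _ h)

lemma isCritical_iff {V : Type} (G : SimpleGraph V) (r : ℕ) (hr : 1 ≤ r) :
    IsCritical G (r + 1) ↔ ¬ G.Colorable r ∧ ∀ x, (G.induce {x}ᶜ).Colorable r := by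
  constructor
  · rintro ⟨h1, h2⟩
    refine ⟨fun h => ?_, fun x => ?_⟩
    · have := chromaticNumber_le_iff_colorable.2 h
      rw [h1] at this
      have : r + 1 ≤ r := by exact_mod_cast this
      omega
    · rw [← chromaticNumber_le_iff_colorable, h2 x]
      simp
  · rintro ⟨h1, h2⟩
    have hne : Nonempty V := by
      by_contra hcon
      rw [not_nonempty_iff] at hcon
      exact h1 ⟨⟨fun v => (hcon.false v).elim, fun {a} => (hcon.false a).elim⟩⟩
    obtain ⟨x0⟩ := hne
    refine ⟨?_, fun x => ?_⟩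
    · have := (chromaticNumber_eq_iff_colorable_not_colorable (G := G) (n := r)).2
        ⟨extend_colorable G x0 r (h2 x0), h1⟩
      rw [this]
      push_cast
      rfl
    · obtain ⟨r', rfl⟩ : ∃ r', r = r' + 1 := ⟨r - 1, by omega⟩
      have := (chromaticNumber_eq_iff_colorable_not_colorable (G := G.induce {x}ᶜ) (n := r')).2
        ⟨h2 x, fun h => h1 (extend_colorable G x r' h)⟩
      rw [this]
      simp

open Classical in
lemma two_mul_ncard {n : ℕ} (G : SimpleGraph (Fin n)) : 2 * G.edgeSet.ncard = E2 G univ := by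
  have h1 := G.sum_degrees_eq_twice_card_edges
  have h2 : G.edgeSet.ncard = G.edgeFinset.card := by
    rw [← coe_edgeFinset, Set.ncard_coe_finset]
  rw [h2, ← h1]
  unfold E2 nb
  refine sum_congr rfl (fun v _ => ?_)
  rw [← card_neighborFinset_eq_degree, neighborFinset_eq_filter]

lemma bdd (k n : ℕ) : BddAbove {m : ℕ | ∃ G : SimpleGraph (Fin n), IsCritical G k ∧ G.edgeSet.ncard = m} := by
  refine ⟨n * n, ?_⟩
  rintro m ⟨G, -, rfl⟩
  have h1 := two_mul_ncard G
  have h2 := E2_le_sq G univ
  rw [card_univ, Fintype.card_fin] at h2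
  omega

/-- the upper bound -/
lemma upper (m : ℕ) (hm : 2 ≤ m) (δ : ℝ) (hδ : 0 < δ) :
    ∃ N : ℕ, ∀ n, N ≤ n → (2 * maxEdges (m + 2) n : ℝ) ≤ (1 - 1 / (m : ℝ) + δ) * (n : ℝ) ^ 2 := by
  have hm' : (2 : ℝ) ≤ m := by exact_mod_cast hm
  have hth : 0 ≤ 1 - 1 / (m : ℝ) := by
    have : 1 / (m : ℝ) ≤ 1 := by rw [div_le_one (by linarith)]; linarith
    linarith
  have hth1 : 1 - 1 / (m : ℝ) ≤ 1 := by
    have : 0 ≤ 1 / (m : ℝ) := by positivity
    linarith
  -- parameters
  obtain ⟨t, ht⟩ := exists_nat_gt (max 2 (12 / δ))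
  have ht2 : (2 : ℝ) < t := (le_max_left _ _).trans_lt ht
  have ht3 : 12 / δ < t := (le_max_right _ _).trans_lt ht
  have ht2' : 2 ≤ t := by
    have : (2 : ℝ) ≤ t := ht2.le
    exact_mod_cast this
  have ht4 : 3 / (t : ℝ) ≤ δ / 4 := by
    rw [div_le_iff₀ (by linarith)]
    rw [div_lt_iff₀ hδ] at ht3
    nlinarith
  obtain ⟨C, hC0, hC⟩ := no_blob_bound m t (δ / 4) (by positivity) (by omega)
  obtain ⟨N1, hN1⟩ := exists_nat_gt (((1 + δ) * ((m + 1) * t) + C) * (4 / δ))
  refine ⟨max N1 (m + 3), fun n hn => ?_⟩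
  have hnm : m + 3 ≤ n := (le_max_right _ _).trans hn
  have hnN : (N1 : ℝ) ≤ n := by exact_mod_cast (le_max_left _ _).trans hn
  have hn1 : (1 : ℝ) ≤ n := by exact_mod_cast (show 1 ≤ n by omega)
  rcases Set.eq_empty_or_nonempty {e : ℕ | ∃ G : SimpleGraph (Fin n), IsCritical G (m + 2) ∧ G.edgeSet.ncard = e} with hem | hne
  · unfold maxEdges
    rw [hem, csSup_empty]
    simp only [bot_eq_zero', Nat.cast_zero, mul_zero]
    positivity
  · obtain ⟨G, hG, hGe⟩ := Nat.sSup_mem hne (bdd (m + 2) n)
    have hcol := (isCritical_iff G (m + 1) (by omega)).1 hG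
    classical
    have hzero : 0 < m + 1 := by omega
    let c : Fin n → Fin n → Fin (m + 1) := fun v a =>
      if h : a = v then ⟨0, hzero⟩ else (hcol.2 v).some ⟨a, by simpa using h⟩
    have hc : ∀ v a b, G.Adj a b → a ≠ v → b ≠ v → c v a ≠ c v b := by
      intro v a b hab hav hbv
      simp only [c, dif_neg hav, dif_neg hbv]
      exact (hcol.2 v).some.valid (by simpa using hab)
    have hs : ∀ v (γ : Fin (m + 1)), ∃ w, G.Adj v w ∧ c v w = γ := by
      intro v γ
      by_contra hcon
      push Not at hcon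
      apply hcol.1
      refine ⟨⟨fun u => if u = v then γ else c v u, ?_⟩⟩
      intro a b hab
      simp only [top_adj]
      by_cases h1 : a = v <;> by_cases h2 : b = v
      · subst h1; subst h2; exact absurd hab (G.irrefl)
      · subst h1
        rw [if_pos rfl, if_neg h2]
        exact (hcon b hab).symm
      · subst h2
        rw [if_neg h1, if_pos rfl]
        exact hcon a hab.symm
      · rw [if_neg h1, if_neg h2]
        exact hc v a b hab h1 h2
    have hmain := upper_main m t hm ht2' (δ / 4) C (by positivity) G c hc hs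
      (by rw [Fintype.card_fin]; exact hnm) (fun X => hC (Fin n) G X) univ ∅ (by simp) (by simp)
      (by simp)
    rw [card_univ, Fintype.card_fin] at hmain
    have h2e := two_mul_ncard G
    have h2e' : (2 * (G.edgeSet.ncard : ℝ)) = E2 G univ := by exact_mod_cast h2e
    have hmx : maxEdges (m + 2) n = G.edgeSet.ncard := hGe.symm
    rw [hmx, h2e']
    have hN2 : ((1 + δ) * ((m + 1) * t) + C) ≤ δ / 4 * n := by
      have : ((1 + δ) * ((m + 1) * t) + C) * (4 / δ) < n := lt_of_lt_of_le hN1 hnN
      have h4 : ((1 + δ) * ((m + 1) * t) + C) = ((1 + δ) * ((m + 1) * t) + C) * (4 / δ) * (δ / 4) := by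
        field_simp
      rw [h4]
      nlinarith
    have h5 : 3 * (n : ℝ) / t * n ≤ δ / 4 * n ^ 2 := by
      have : 3 * (n : ℝ) / t * n = 3 / t * n ^ 2 := by ring
      rw [this]
      exact mul_le_mul_of_nonneg_right ht4 (by positivity)
    have h6 : (1 - 1 / (m : ℝ) + δ / 4) * ((m + 1) * t) * n + C ≤ δ / 4 * n ^ 2 := by
      have h7 : (1 - 1 / (m : ℝ) + δ / 4) * ((m + 1) * t) ≤ (1 + δ) * ((m + 1) * t) := by
        apply mul_le_mul_of_nonneg_right _ (by positivity)
        linarith
      have h8 : C ≤ C * n := by nlinarith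
      nlinarith
    nlinarith

/-- the vertex type as a sum type -/
def toSum (q a e : ℕ) : Vx q a e ≃ (Fin (q + 2) ⊕ (Fin (q + 1) × (Fin 2 → Fin a))) ⊕
    ((Fin 2 × Fin (q + 1) × Fin a) ⊕ (Σ p : Fin 2 × Fin (q + 1), Fin (len a e p.1 p.2))) where
  toFun v := match v with
    | .t j => Sum.inl (Sum.inl j)
    | .g P p => Sum.inl (Sum.inr (P, p))
    | .w s P x => Sum.inr (Sum.inl (s, P, x))
    | .z s P i => Sum.inr (Sum.inr ⟨(s, P), i⟩)
  invFun v := match v with
    | Sum.inl (Sum.inl j) => .t j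
    | Sum.inl (Sum.inr (P, p)) => .g P p
    | Sum.inr (Sum.inl (s, P, x)) => .w s P x
    | Sum.inr (Sum.inr ⟨(s, P), i⟩) => .z s P i
  left_inv v := by cases v <;> rfl
  right_inv v := by rcases v with (_ | ⟨_, _⟩) | (⟨_, _, _⟩ | ⟨⟨_, _⟩, _⟩) <;> rfl

noncomputable instance (q a e : ℕ) : Fintype (Vx q a e) := Fintype.ofEquiv _ (toSum q a e).symm

lemma card_Vx (q a e : ℕ) : Fintype.card (Vx q a e) = (q + 2) + (q + 1) * (a * a + 4 * a) + e := by
  rw [Fintype.card_congr (toSum q a e)]
  simp only [Fintype.card_sum, Fintype.card_prod, Fintype.card_fin, Fintype.card_pi,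
    Finset.prod_const, card_univ, Fintype.card_sigma]
  have h1 : ∑ p : Fin 2 × Fin (q + 1), len a e p.1 p.2 = 2 * (q + 1) * a + e := by
    have h2 : ∀ p : Fin 2 × Fin (q + 1), len a e p.1 p.2 = a + if p = (0, 0) then e else 0 := by
      rintro ⟨s, P⟩
      unfold len
      by_cases h : s = 0 ∧ P = 0
      · obtain ⟨rfl, rfl⟩ := h
        simp
      · rw [if_neg, if_neg]
        · simp
        · simpa [Prod.ext_iff] using h
        · intro h3
          apply h
          exact ⟨Fin.ext (by simpa using h3.1), Fin.ext (by simpa using h3.2)⟩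
    simp only [h2, sum_add_distrib, sum_const, sum_ite_eq', mem_univ, if_true, card_univ,
      Fintype.card_prod, Fintype.card_fin, smul_eq_mul]
  rw [h1]
  ring

/-- many edges -/
lemma E2_Gr (q a e : ℕ) : (q + 1) * q * (a * a) ^ 2 ≤ E2 (Gr q a e) univ := by
  classical
  -- the grid vertices
  let γ : Fin (q + 1) × (Fin 2 → Fin a) → Vx q a e := fun x => .g x.1 x.2
  have hγ : Function.Injective γ := by
    rintro ⟨P, p⟩ ⟨P', p'⟩ h
    simp only [γ, Vx.g.injEq] at h
    rw [h.1, h.2]
  have hsub : ∑ w ∈ univ.map ⟨γ, hγ⟩, nb (Gr q a e) w univ ≤ E2 (Gr q a e) univ :=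
    sum_le_sum_of_subset (subset_univ _)
  refine le_trans ?_ hsub
  rw [sum_map]
  have hnb : ∀ x : Fin (q + 1) × (Fin 2 → Fin a), q * (a * a) ≤ nb (Gr q a e) (γ x) univ := by
    rintro ⟨P, p⟩
    have h1 : (((univ.erase P) ×ˢ (univ : Finset (Fin 2 → Fin a))).map ⟨γ, hγ⟩).card = q * (a * a) := by
      rw [card_map, card_product, card_erase_of_mem (mem_univ P)]
      simp [pow_two]
    rw [← h1]
    unfold nb
    apply card_le_card
    intro v hv
    rw [Finset.mem_map] at hv
    obtain ⟨⟨P', p'⟩, hP', rfl⟩ := hv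
    rw [Finset.mem_product, Finset.mem_erase] at hP'
    rw [mem_filter]
    refine ⟨mem_univ _, ?_⟩
    have hne : P ≠ P' := fun h => hP'.1.1 h.symm
    rw [Gr, fromRel_adj]
    refine ⟨?_, Or.inl ?_⟩
    · simp [γ, hne]
    · simpa [γ, rel] using hne
  calc (q + 1) * q * (a * a) ^ 2 = ∑ _x : Fin (q + 1) × (Fin 2 → Fin a), q * (a * a) := by
        rw [sum_const, card_univ]
        simp only [Fintype.card_prod, Fintype.card_fin, Fintype.card_pi, Finset.prod_const,
          card_univ, smul_eq_mul]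
        ring
    _ ≤ _ := sum_le_sum (fun x _ => hnb x)

lemma transport {W : Type} [Fintype W] (G : SimpleGraph W) (r n : ℕ) (hr : 1 ≤ r)
    (hcard : Fintype.card W = n) (h1 : ¬ G.Colorable r) (h2 : ∀ x, (G.induce {x}ᶜ).Colorable r) :
    ∃ G' : SimpleGraph (Fin n), IsCritical G' (r + 1) ∧ E2 G' univ = E2 G univ := by
  classical
  let e : W ≃ Fin n := Fintype.equivFinOfCardEq hcard
  refine ⟨G.comap e.symm, ?_, ?_⟩
  · rw [isCritical_iff _ r hr]
    refine ⟨?_, ?_⟩
    · rintro ⟨c⟩
      refine h1 ⟨⟨fun v => c (e v), ?_⟩⟩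
      intro a b hab
      exact c.valid (by simpa using hab)
    · intro x
      obtain ⟨c⟩ := h2 (e.symm x)
      refine ⟨⟨fun v => c ⟨e.symm v.1, ?_⟩, ?_⟩⟩
      · have := v.2
        simp only [Set.mem_compl_iff, Set.mem_singleton_iff] at this ⊢
        exact fun h => this (e.symm.injective h)
      · rintro ⟨a, ha⟩ ⟨b, hb⟩ hab
        exact c.valid (by simpa using hab)
  · unfold E2
    rw [← Equiv.sum_comp e]
    refine sum_congr rfl (fun w _ => ?_)
    unfold nb
    symm
    refine card_bij (fun a _ => e a) ?_ ?_ ?_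
    · intro a ha
      simpa using ha
    · intro a _ b _ h
      exact e.injective h
    · intro b hb
      exact ⟨e.symm b, by simpa using hb, by simp⟩

/-- the lower bound for a given grid size -/
lemma lower_a (q a n : ℕ) (hq : 1 ≤ q) (ha : 1 ≤ a)
    (hn : (q + 2) + (q + 1) * (a * a + 4 * a) + 1 ≤ n) :
    (q + 1) * q * (a * a) ^ 2 ≤ 2 * maxEdges (q + 3) n := by
  obtain ⟨e, he⟩ : ∃ e, n = (q + 2) + (q + 1) * (a * a + 4 * a) + e := ⟨_, (Nat.add_sub_of_le (by omega)).symm⟩
  have he1 : 1 ≤ e := by omega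
  obtain ⟨G, hG, hGE⟩ := transport (Gr q a e) (q + 2) n (by omega) (by rw [card_Vx, he])
    (not_colorable hq ha) (fun x => del_colorable hq ha he1 x)
  have h1 : G.edgeSet.ncard ≤ maxEdges (q + 3) n := le_csSup (bdd (q + 3) n) ⟨G, hG, rfl⟩
  have h2 := two_mul_ncard G
  have h3 := E2_Gr q a e
  omega

/-- the lower bound -/
lemma lower (q : ℕ) (hq : 1 ≤ q) (δ : ℝ) (hδ : 0 < δ) :
    ∃ N : ℕ, ∀ n, N ≤ n → (1 - 1 / ((q + 1 : ℕ) : ℝ) - δ) * (n : ℝ) ^ 2 ≤ 2 * maxEdges (q + 3) n := by
  obtain ⟨K, hK⟩ := exists_nat_gt (16 / δ)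
  refine ⟨(q + 1) * (K + 4) ^ 2, fun n hn => ?_⟩
  set m : ℕ := q + 1 with hm
  set s : ℕ := Nat.sqrt (n / m) with hs
  have hm0 : 0 < m := by omega
  have hsK : K + 4 ≤ s := by
    rw [hs, Nat.le_sqrt, Nat.le_div_iff_mul_le hm0]
    calc (K + 4) * (K + 4) * m = m * (K + 4) ^ 2 := by ring
      _ ≤ n := hn
  obtain ⟨a, ha⟩ : ∃ a, s = a + 3 := ⟨s - 3, by omega⟩
  have ha1 : 1 ≤ a := by omega
  have haK : K + 1 ≤ a := by omega
  have hs1 : s * s ≤ n / m := Nat.sqrt_le _
  have hs2 : n / m < (s + 1) * (s + 1) := Nat.lt_succ_sqrt _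
  have hn1 : m * (s * s) ≤ n := (Nat.mul_le_mul_left m hs1).trans (Nat.mul_div_le n m)
  have hn2 : n < m * ((s + 1) * (s + 1)) := by
    calc n < m * (n / m + 1) := Nat.lt_mul_div_succ n hm0
      _ ≤ m * ((s + 1) * (s + 1)) := Nat.mul_le_mul_left m hs2
  have hlow := lower_a q a n hq ha1 (by
    rw [ha] at hn1
    nlinarith)
  have hlow' : ((q : ℝ) + 1) * q * ((a : ℝ) * a) ^ 2 ≤ 2 * maxEdges (q + 3) n := by exact_mod_cast hlow
  refine le_trans ?_ hlow'
  rw [ha] at hn2
  have hn3 : (n : ℝ) ≤ ((q : ℝ) + 1) * ((a + 4) * (a + 4)) := by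
    have : n ≤ (q + 1) * ((a + 4) * (a + 4)) := by
      have h5 : a + 3 + 1 = a + 4 := by ring
      rw [h5] at hn2
      exact hn2.le
    exact_mod_cast this
  have hq0 : (0 : ℝ) < q := by exact_mod_cast hq
  have ha0 : (0 : ℝ) < a := by exact_mod_cast ha1
  have haK' : (16 / δ) < a + 4 := by
    have : (K : ℝ) + 1 ≤ a := by exact_mod_cast haK
    linarith
  have h16 : 16 / ((a : ℝ) + 4) ≤ δ := by
    rw [div_lt_iff₀ hδ] at haK'
    rw [div_le_iff₀ (by positivity)]
    linarith
  -- Bernoulli
  have hb : 1 - 16 / ((a : ℝ) + 4) ≤ ((a : ℝ) / (a + 4)) ^ 4 := by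
    have h1 := one_add_mul_le_pow (a := -(4 / ((a : ℝ) + 4))) (by
      have : 4 / ((a : ℝ) + 4) ≤ 1 := by rw [div_le_one (by positivity)]; linarith
      linarith) 4
    have h2 : 1 + -(4 / ((a : ℝ) + 4)) = (a : ℝ) / (a + 4) := by
      field_simp
      ring
    rw [h2] at h1
    refine le_trans (le_of_eq ?_) h1
    push_cast
    ring
  have hn4 : (n : ℝ) ^ 2 ≤ (((q : ℝ) + 1) * ((a + 4) * (a + 4))) ^ 2 :=
    pow_le_pow_left₀ (by positivity) hn3 2
  have hcoef : 0 ≤ 1 - 1 / ((q : ℝ) + 1) := by
    have : 1 / ((q : ℝ) + 1) ≤ 1 := by rw [div_le_one (by positivity)]; linarith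
    linarith
  have hcoef1 : 1 - 1 / ((q : ℝ) + 1) ≤ 1 := by
    have : 0 ≤ 1 / ((q : ℝ) + 1) := by positivity
    linarith
  have hcast : ((m : ℕ) : ℝ) = (q : ℝ) + 1 := by rw [hm]; push_cast; ring
  rw [hcast]
  have hstep1 : (1 - 1 / ((q : ℝ) + 1) - δ) * (n : ℝ) ^ 2 ≤
      (1 - 1 / ((q : ℝ) + 1)) * (1 - 16 / ((a : ℝ) + 4)) * (n : ℝ) ^ 2 := by
    apply mul_le_mul_of_nonneg_right _ (by positivity)
    have h3 : 0 ≤ 16 / ((a : ℝ) + 4) := by positivity
    nlinarith
  refine hstep1.trans ?_
  rcases le_or_gt 0 (1 - 16 / ((a : ℝ) + 4)) with hpos | hneg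
  · have hstep2 : (1 - 1 / ((q : ℝ) + 1)) * (1 - 16 / ((a : ℝ) + 4)) * (n : ℝ) ^ 2 ≤
        (1 - 1 / ((q : ℝ) + 1)) * ((a : ℝ) / (a + 4)) ^ 4 * (((q : ℝ) + 1) * ((a + 4) * (a + 4))) ^ 2 := by
      apply mul_le_mul _ hn4 (by positivity) (by positivity)
      exact mul_le_mul_of_nonneg_left hb hcoef
    refine hstep2.trans (le_of_eq ?_)
    field_simp
    ring
  · have : (1 - 1 / ((q : ℝ) + 1)) * (1 - 16 / ((a : ℝ) + 4)) * (n : ℝ) ^ 2 ≤ 0 := by
      have h7 : (1 - 1 / ((q : ℝ) + 1)) * (1 - 16 / ((a : ℝ) + 4)) ≤ 0 :=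
        mul_nonpos_of_nonneg_of_nonpos hcoef hneg.le
      exact mul_nonpos_of_nonpos_of_nonneg h7 (by positivity)
    refine this.trans (by positivity)

end Final

/-- for every fixed `k ≥ 4`, the maximal number of edges of a critical `k`-chromatic graph on
`n` vertices is `((k-3)/(2(k-2)) + o(1)) n^2` -/
theorem result (k : ℕ) (hk : 4 ≤ k) :
    Tendsto (fun n : ℕ => (maxEdges k n : ℝ) / (n : ℝ) ^ 2) atTop
      (𝓝 (((k : ℝ) - 3) / (2 * ((k : ℝ) - 2)))) := by
  obtain ⟨q, rfl⟩ : ∃ q, k = q + 3 := ⟨k - 3, by omega⟩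
  have hq : 1 ≤ q := by omega
  have hq0 : (0 : ℝ) < q := by exact_mod_cast hq
  have hlim : (((q + 3 : ℕ) : ℝ) - 3) / (2 * (((q + 3 : ℕ) : ℝ) - 2)) = (1 - 1 / ((q : ℝ) + 1)) / 2 := by
    push_cast
    have h1 : (q : ℝ) + 3 - 2 = q + 1 := by ring
    rw [h1]
    field_simp
    ring
  rw [hlim, Metric.tendsto_atTop]
  intro ε hε
  obtain ⟨N1, hN1⟩ := upper (q + 1) (by omega) ε hε
  obtain ⟨N2, hN2⟩ := lower q hq ε hε
  refine ⟨max (max N1 N2) 1, fun n hn => ?_⟩
  have h1 := hN1 n ((le_max_left _ _).trans ((le_max_left _ _).trans hn))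
  have h2 := hN2 n ((le_max_right _ _).trans ((le_max_left _ _).trans hn))
  have hn1 : (1 : ℝ) ≤ n := by exact_mod_cast (le_max_right _ _).trans hn
  have hn2 : (0 : ℝ) < (n : ℝ) ^ 2 := by positivity
  have e1 : q + 1 + 2 = q + 3 := by ring
  rw [e1] at h1
  push_cast at h1 h2
  rw [Real.dist_eq, abs_lt]
  constructor
  · rw [lt_sub_iff_add_lt, lt_div_iff₀ hn2]
    nlinarith
  · rw [sub_lt_iff_lt_add, div_lt_iff₀ hn2]
    nlinarith

end Pool.Agent.Results.MP_f053ce_co.Asymptotic
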